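import Pool.Agent.TH610.CSP.Stm

/-!
# ARITH: Mennicke symbols with values in a group of finite exponent are trivial
-/

set_option autoImplicit false

namespace Pool.Agent.TH610.CSP

namespace H628

open scoped NumberTheorySymbols

/-- Chinese remainder theorem in `ℤ` -/
lemma crt {m n : ℤ} (h : IsCoprime m n) (x y : ℤ) : ∃ c : ℤ, m ∣ c - x ∧ n ∣ c - y := by
  obtain ⟨u, v, huv⟩ := h
  refine ⟨x * (v * n) + y * (u * m), ⟨(y - x) * u, ?_⟩, ⟨(x - y) * v, ?_⟩⟩
  · linear_combination x * huv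
  · linear_combination y * huv

lemma coprime_of_dvd_sub {m x y : ℤ} (h : m ∣ x - y) (hy : IsCoprime y m) : IsCoprime x m := by
  obtain ⟨t, ht⟩ := h
  have e : x = y + m * t := by linarith
  rw [e]
  exact IsCoprime.add_mul_left_left hy t

theorem t_arith : StArith := by
  intro Q _ n0 hn0 hexp f h1 h2 hm a b hab ha hb
  set q : ℤ := 8 * (n0 : ℤ) with hq
  have hq8 : 8 ≤ q := by
    have : (1 : ℤ) ≤ (n0 : ℤ) := by exact_mod_cast hn0
    rw [hq]; linarith
  have f_one : ∀ b : ℤ, q ∣ b → f 1 b = 1 := by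
    intro b hb
    have h := hm 1 1 b isCoprime_one_left isCoprime_one_left (by simp) (by simp) hb
    rw [mul_one] at h
    exact (mul_eq_left.mp h.symm)
  by_cases hb0 : b = 0
  · rw [hb0] at hab ⊢
    have hu : IsUnit a := by
      obtain ⟨u, v, huv⟩ := hab
      rw [mul_zero, add_zero] at huv
      exact IsUnit.of_mul_eq_one u (by linarith)
    rcases Int.isUnit_iff.mp hu with h | h
    · rw [h]; exact f_one 0 (dvd_zero _)
    · exfalso
      rw [h] at ha
      have h3 : q ∣ 2 := by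
        have := (dvd_neg (a := q)).mpr ha
        norm_num at this
        exact this
      have := Int.le_of_dvd (by norm_num) h3
      linarith
  -- step 1: a negative representative
  obtain ⟨b0, hbb⟩ := hb
  have hb : q ∣ b := ⟨b0, hbb⟩
  have hb00 : b0 ≠ 0 := by
    rintro rfl
    exact hb0 (by rw [hbb, mul_zero])
  set a' : ℤ := a + (-(|a| + 1) * b) * b with ha'
  have hfa' : f a' b = f a b := h1 a b _ hab ha hb
  have hneg : a' < 0 := by
    have hb2 : 1 ≤ b * b := by
      have := mul_self_pos.mpr hb0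
      linarith
    have habs := le_abs_self a
    have habs0 := abs_nonneg a
    rw [ha']
    nlinarith
  have hab' : IsCoprime a' b := by
    rw [ha']
    exact IsCoprime.add_mul_right_left hab _
  have haq' : q ∣ a' - 1 := by
    rw [ha']
    obtain ⟨t, ht⟩ := ha
    exact ⟨t + (-(|a| + 1) * b) * b0, by rw [hbb] at *; linarith [ht]⟩
  obtain ⟨α, hα⟩ : ∃ α : ℕ, (α : ℤ) = -a' := ⟨a'.natAbs, by omega⟩
  have hα8 : (8 : ℤ) ∣ a' - 1 := (Dvd.intro _ hq.symm).trans haq'
  have hα4 : α % 4 = 3 := by omega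
  have hαpos : 0 < α := by omega
  have hαodd : Odd α := Nat.odd_iff.mpr (by omega)
  have hcopb0 : IsCoprime a' b0 := by
    rw [hbb] at hab'
    exact IsCoprime.of_mul_right_right hab'
  have hcopq : IsCoprime a' q := coprime_of_dvd_sub haq' isCoprime_one_left
  have hcopαq : IsCoprime (α : ℤ) q := by rw [hα]; exact hcopq.neg_left
  have hcopb0α : IsCoprime b0 (α : ℤ) := by rw [hα]; exact hcopb0.symm.neg_right
  -- step 2: the sign
  have hJneg : J(-1 | α) = -1 := by
    rw [jacobiSym.at_neg_one hαodd]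
    exact ZMod.χ₄_nat_three_mod_four hα4
  obtain ⟨s, hs, hJs⟩ : ∃ s : ℤ, (s = 1 ∨ s = -1) ∧ J(s * b0 | α) = 1 := by
    have hg : b0.gcd α = 1 := Int.isCoprime_iff_gcd_eq_one.mp hcopb0α
    rcases jacobiSym.eq_one_or_neg_one hg with h | h
    · exact ⟨1, Or.inl rfl, by rw [one_mul]; exact h⟩
    · refine ⟨-1, Or.inr rfl, ?_⟩
      rw [jacobiSym.mul_left, hJneg, h]; norm_num
  have hss : s * s = 1 := by rcases hs with h | h <;> rw [h] <;> norm_num
  -- step 3: the prime
  obtain ⟨c, hc1, hc2⟩ := crt hcopαq (s * b0) (-1)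
  have hcα : IsCoprime c (α : ℤ) := by
    refine coprime_of_dvd_sub hc1 (IsCoprime.mul_left ?_ hcopb0α)
    rcases hs with h | h
    · rw [h]; exact isCoprime_one_left
    · rw [h]; exact isCoprime_one_left.neg_left
  have hcq : IsCoprime c q := coprime_of_dvd_sub hc2 isCoprime_one_left.neg_left
  have hNz : α * (8 * n0) ≠ 0 := by positivity
  have hcN : IsCoprime c ((α * (8 * n0) : ℕ) : ℤ) := by
    have e : ((α * (8 * n0) : ℕ) : ℤ) = (α : ℤ) * q := by rw [hq]; push_cast; ring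
    rw [e]
    exact IsCoprime.mul_right hcα hcq
  obtain ⟨p, -, hp, hpc⟩ := Nat.forall_exists_prime_gt_and_zmodEq 0 hNz hcN
  have hpc' : (α : ℤ) * q ∣ (p : ℤ) - c := by
    have e : ((α * (8 * n0) : ℕ) : ℤ) = (α : ℤ) * q := by rw [hq]; push_cast; ring
    rw [← e]
    exact hpc.symm.dvd
  have hpα : (α : ℤ) ∣ (p : ℤ) - s * b0 := by
    have := (Dvd.intro _ rfl).trans hpc'
    have h3 := dvd_add this hc1
    rwa [show (p : ℤ) - c + (c - s * b0) = (p : ℤ) - s * b0 by ring] at h3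
  have hpq : q ∣ (p : ℤ) + 1 := by
    have := (Dvd.intro_left _ rfl).trans hpc'
    have h3 := dvd_add this hc2
    rwa [show (p : ℤ) - c + (c - -1) = (p : ℤ) + 1 by ring] at h3
  have : Fact p.Prime := ⟨hp⟩
  have hp8 : (8 : ℤ) ∣ (p : ℤ) + 1 := (Dvd.intro _ hq.symm).trans hpq
  have hp4 : p % 4 = 3 := by omega
  have hpodd : Odd p := Nat.odd_iff.mpr (by omega)
  -- step 4: `a'` is a square modulo `p`
  have hJp : J((p : ℤ) | α) = 1 := by
    rw [← hJs]
    exact jacobiSym.mod_left'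
      (Int.emod_eq_emod_iff_emod_sub_eq_zero.mpr (Int.emod_eq_zero_of_dvd hpα))
  have hJα : J((α : ℤ) | p) = -1 := by
    rw [jacobiSym.quadratic_reciprocity_three_mod_four hα4 hp4, hJp]
  have hJa : J(a' | p) = 1 := by
    have e : a' = -(α : ℤ) := by linarith
    rw [e, jacobiSym.neg _ hpodd, hJα, ZMod.χ₄_nat_three_mod_four hp4]
    norm_num
  obtain ⟨y0, hy0⟩ := ZMod.isSquare_of_jacobiSym_eq_one hJa
  -- step 5
  set B : ℤ := q * s * p with hB
  obtain ⟨t, ht⟩ : ∃ t : ℤ, s * (p : ℤ) = b0 + t * a' := by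
    obtain ⟨k, hk⟩ := hpα
    refine ⟨-(s * k), ?_⟩
    have e : (p : ℤ) = s * b0 + α * k := by linarith
    rw [e, hα]
    linear_combination b0 * hss
  have hBb : B = b + 8 * n0 * t * a' := by
    rw [hB, hbb, ← hq, mul_assoc, ht]; ring
  have hfB : f a' B = f a' b := by
    rw [hBb]
    exact h2 a' b t hab' haq' hb
  have hqB : q ∣ B := ⟨s * p, by rw [hB]; ring⟩
  have haB : IsCoprime a' B := by
    rw [hBb]
    have := IsCoprime.add_mul_right_right hab' (8 * (n0 : ℤ) * t)
    exact this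
  -- step 6
  have hcpq : IsCoprime (p : ℤ) q := by
    refine coprime_of_dvd_sub (y := -1) ?_ isCoprime_one_left.neg_left
    rwa [sub_neg_eq_add]
  obtain ⟨y, hy1, hy2⟩ := crt hcpq (y0.val : ℤ) 1
  have hyp : (p : ℤ) ∣ a' - y * y := by
    rw [← ZMod.intCast_zmod_eq_zero_iff_dvd]
    have hy1' : ((y : ℤ) : ZMod p) = y0 := by
      have := (ZMod.intCast_zmod_eq_zero_iff_dvd (y - (y0.val : ℤ)) p).mpr hy1
      push_cast at this
      rw [ZMod.natCast_zmod_val, sub_eq_zero] at this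
      exact this
    push_cast
    rw [hy0, hy1', sub_self]
  have hyq : q ∣ a' - y * y := by
    have h3 : q ∣ y * y - 1 := by
      have := hy2.mul_left (y + 1)
      rwa [show (y + 1) * (y - 1) = y * y - 1 by ring] at this
    have := dvd_sub haq' h3
    rwa [show a' - 1 - (y * y - 1) = a' - y * y by ring] at this
  have hyB : B ∣ a' - y * y := by
    have h3 : q * (p : ℤ) ∣ a' - y * y := hcpq.symm.mul_dvd hyq hyp
    obtain ⟨k, hk⟩ := h3
    refine ⟨s * k, ?_⟩
    rw [hk, hB]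
    linear_combination (-(q * (p : ℤ) * k)) * hss
  obtain ⟨t', ht'⟩ := hyB
  have hyyB : IsCoprime (y * y) B := by
    have e : y * y = a' + B * (-t') := by linarith
    rw [e]
    exact IsCoprime.add_mul_left_left haB _
  have hyB' : IsCoprime y B := hyyB.of_mul_left_left
  have hyy1 : q ∣ y * y - 1 := by
    have := hy2.mul_left (y + 1)
    rwa [show (y + 1) * (y - 1) = y * y - 1 by ring] at this
  have hf6 : f a' B = f y B * f y B := by
    have e : a' = y * y + t' * B := by linarith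
    rw [← hm y y B hyB' hyB' hy2 hy2 hqB, ← h1 (y * y) B t' hyyB hyy1 hqB, ← e]
  -- step 7
  have hpow : ∀ k : ℕ, q ∣ y ^ (k + 1) - 1 ∧ f (y ^ (k + 1)) B = f y B ^ (k + 1) := by
    intro k
    induction k with
    | zero => simpa using hy2
    | succ k ih =>
      have hd : q ∣ y ^ (k + 1 + 1) - 1 := by
        have h3 := ih.1.mul_right y
        have := dvd_add h3 hy2
        rwa [show (y ^ (k + 1) - 1) * y + (y - 1) = y ^ (k + 1 + 1) - 1 by ring] at this
      refine ⟨hd, ?_⟩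
      rw [pow_succ y (k + 1), hm _ _ _ (hyB'.pow_left) hyB' ih.1 hy2 hqB, ih.2, ← pow_succ]
  have hp2 := hp.two_le
  have hxp : f y B ^ (p - 1) = 1 := by
    obtain ⟨k, hk⟩ : ∃ k, p - 1 = k + 1 := ⟨p - 2, by omega⟩
    have h3 := hpow k
    rw [← hk] at h3
    rw [← h3.2]
    have hpd : (p : ℤ) ∣ y ^ (p - 1) - 1 := by
      rw [← ZMod.intCast_zmod_eq_zero_iff_dvd]
      push_cast
      have hne : ((y : ℤ) : ZMod p) ≠ 0 := by
        intro h0
        rw [ZMod.intCast_zmod_eq_zero_iff_dvd] at h0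
        have hBp : (p : ℤ) ∣ B := ⟨q * s, by rw [hB]; ring⟩
        have := hyB'.isUnit_of_dvd' h0 hBp
        rw [Int.isUnit_iff] at this
        omega
      rw [ZMod.pow_card_sub_one_eq_one hne, sub_self]
    have hqp : q * (p : ℤ) ∣ y ^ (p - 1) - 1 := hcpq.symm.mul_dvd h3.1 hpd
    obtain ⟨k', hk'⟩ := hqp
    have e : y ^ (p - 1) = 1 + (s * k') * B := by
      rw [hB]
      linear_combination hk' - (q * (p : ℤ) * k') * hss
    rw [e, h1 1 B _ isCoprime_one_left (by simp) hqB]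
    exact f_one B hqB
  have hord1 : orderOf (f y B) ∣ p - 1 := orderOf_dvd_of_pow_eq_one hxp
  have hord2 : orderOf (f y B) ∣ n0 := orderOf_dvd_of_pow_eq_one (hexp _)
  have hord : orderOf (f y B) ∣ 2 := by
    have h3 : ((orderOf (f y B) : ℕ) : ℤ) ∣ (p : ℤ) + 1 := by
      have h4 : ((orderOf (f y B) : ℕ) : ℤ) ∣ (n0 : ℤ) := by exact_mod_cast hord2
      exact (h4.trans (Dvd.intro_left _ hq.symm)).trans hpq
    have h5 : ((orderOf (f y B) : ℕ) : ℤ) ∣ (p : ℤ) - 1 := by
      have : ((orderOf (f y B) : ℕ) : ℤ) ∣ ((p - 1 : ℕ) : ℤ) := by exact_mod_cast hord1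
      rwa [Nat.cast_sub (by omega), Nat.cast_one] at this
    have h6 := dvd_sub h3 h5
    rw [show (p : ℤ) + 1 - ((p : ℤ) - 1) = ((2 : ℕ) : ℤ) by push_cast; ring] at h6
    exact_mod_cast h6
  have hsq : f y B * f y B = 1 := by
    rw [← pow_two]
    exact orderOf_dvd_iff_pow_eq_one.mp hord
  rw [← hfa', ← hfB, hf6, hsq]

end H628

end Pool.Agent.TH610.CSP
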